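import Pool.Agent.Y995.RT.Fin

/-!
# The window of the `ℓ^p` cutoff of the random transposition walk

For every real `p ≥ 2` and every threshold the `ℓ^p` mixing time of the random transposition walk on
`S_n` is `(1/2) n log n + O(n)`: at time `(1/2) n (log n + c)` the `ℓ^p` distance is as small as we
like if `c` is large, and at time `(1/2) n (log n - c)` it is as large as we like.
-/

set_option autoImplicit false

open Finset Equiv Filter Topology
open scoped Nat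

namespace Pool.Agent.Results.MP_c0051b_pr.LpCutoffWindow

open Pool.Agent.Results.MP_c0051b_pr.TranspositionLpCutoff
open Pool.Agent.Y995.RT

/-- The `ℓ^p` mixing time of the random transposition walk on `S_n`, threshold `a`: the first time
`t` with `dp p n t ≤ a`. -/
noncomputable def mixTime (p a : ℝ) (n : ℕ) : ℕ := sInf {t : ℕ | dp p n t ≤ a}

theorem upper_dp (p a : ℝ) (hp : 1 ≤ p) (ha : 0 < a) : ∃ c : ℝ, 0 ≤ c ∧ ∀ᶠ n : ℕ in atTop,
    ∀ t : ℕ, 1 / 2 * (n * (Real.log n + c)) ≤ t → dp p n t ≤ a := by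
  obtain ⟨m, hm⟩ := exists_nat_ge p
  have hm1 : 1 ≤ m := by
    have : (1 : ℝ) ≤ m := hp.trans hm
    exact_mod_cast this
  have hq : Even (2 * m) := even_two_mul m
  have hpq : p ≤ ((2 * m : ℕ) : ℝ) := by
    push_cast
    have : (0 : ℝ) ≤ m := Nat.cast_nonneg m
    linarith
  have hq0 : (0 : ℝ) < ((2 * m : ℕ) : ℝ) := by
    have : 0 < 2 * m := by omega
    exact_mod_cast this
  obtain ⟨c, hc, h⟩ := upper_window (q := 2 * m) hq (by omega) (a := a ^ (2 * m)) (by positivity)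
  refine ⟨c, hc, ?_⟩
  filter_upwards [h] with n hn t ht
  rw [dp_eq]
  refine (RT.mom_root_le (by linarith) hpq n t).trans ?_
  have h1 : RT.mom ((2 * m : ℕ) : ℝ) n t ≤ a ^ (2 * m) := by
    rw [RT.mom_nat hq]
    exact hn t (by linarith)
  have h2 := Real.rpow_le_rpow (RT.mom_nonneg _ _ _) h1
    (by positivity : 0 ≤ 1 / ((2 * m : ℕ) : ℝ))
  have h3 : (a ^ (2 * m)) ^ (1 / ((2 * m : ℕ) : ℝ)) = a := by
    rw [← Real.rpow_natCast a (2 * m), ← Real.rpow_mul ha.le, mul_one_div_cancel hq0.ne',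
      Real.rpow_one]
  rwa [h3] at h2

theorem lower_dp (p M : ℝ) (hp : 2 ≤ p) : ∃ c : ℝ, 0 ≤ c ∧ ∀ᶠ n : ℕ in atTop,
    ∀ t : ℕ, (t : ℝ) ≤ 1 / 2 * (n * (Real.log n - c)) → |M| + 1 ≤ dp p n t := by
  obtain ⟨c, hc, h⟩ := lower_window M
  refine ⟨c, hc, ?_⟩
  filter_upwards [h] with n hn t ht
  rw [dp_eq]
  have h1 := hn t (by linarith)
  refine le_trans ?_ (RT.mom_root_le (by norm_num : (0 : ℝ) < 2) hp n t)
  have hM : 0 ≤ |M| + 1 := by positivity
  have h2 := Real.rpow_le_rpow (by positivity) h1 (by norm_num : (0 : ℝ) ≤ 1 / 2)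
  have h3 : ((|M| + 1) ^ 2) ^ (1 / 2 : ℝ) = |M| + 1 := by
    rw [← Real.sqrt_eq_rpow, Real.sqrt_sq hM]
  rwa [h3] at h2

/-- For the random transposition walk on `S_n`: (1) for every `p > 2` there is an `ℓ^p` cutoff at
time `(1/2) n log n`; (2) for every `p ≥ 2` and every threshold `a > 0` the `ℓ^p` mixing time is
`(1/2) n log n + O(n)`; (3) for every `p ≥ 1` and `a > 0` there is `c` such that for all large `n`
the `ℓ^p` distance is at most `a` at all times `t ≥ (1/2) n (log n + c)`; (4) for every `p ≥ 2` and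
`M` there is `c` such that for all large `n` the `ℓ^p` distance is at least `M` at all times
`t ≤ (1/2) n (log n - c)`. -/
theorem result :
    (∀ p : ℝ, 2 < p → HasLpCutoff p (fun n : ℕ => 1 / 2 * (n * Real.log n))) ∧
    (∀ p a : ℝ, 2 ≤ p → 0 < a → ∃ C : ℝ, ∀ᶠ n : ℕ in atTop,
      |(mixTime p a n : ℝ) - 1 / 2 * (n * Real.log n)| ≤ C * n) ∧
    (∀ p a : ℝ, 1 ≤ p → 0 < a → ∃ c : ℝ, ∀ᶠ n : ℕ in atTop,
      ∀ t : ℕ, 1 / 2 * (n * (Real.log n + c)) ≤ t → dp p n t ≤ a) ∧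
    (∀ p M : ℝ, 2 ≤ p → ∃ c : ℝ, ∀ᶠ n : ℕ in atTop,
      ∀ t : ℕ, (t : ℝ) ≤ 1 / 2 * (n * (Real.log n - c)) → M ≤ dp p n t) := by
  refine ⟨fun p hp => TranspositionLpCutoff.result p hp, fun p a hp ha => ?_,
    fun p a hp ha => ?_, fun p M hp => ?_⟩
  · obtain ⟨c1, hc1, h1⟩ := upper_dp p a (by linarith) ha
    obtain ⟨c2, hc2, h2⟩ := lower_dp p a hp
    refine ⟨c1 / 2 + c2 / 2 + 1, ?_⟩
    filter_upwards [h1, h2, eventually_ge_atTop 1] with n hn1 hn2 hn
    have hn' : (1 : ℝ) ≤ n := by exact_mod_cast hn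
    have hlog : 0 ≤ Real.log n := Real.log_natCast_nonneg n
    obtain ⟨T, hT⟩ : ∃ T : ℕ, T = ⌈1 / 2 * (n * (Real.log n + c1))⌉₊ := ⟨_, rfl⟩
    have hpos : 0 ≤ 1 / 2 * (n * (Real.log n + c1)) := by positivity
    have hT1 : 1 / 2 * (n * (Real.log n + c1)) ≤ T := by rw [hT]; exact Nat.le_ceil _
    have hT2 : (T : ℝ) ≤ 1 / 2 * (n * (Real.log n + c1)) + 1 := by
      rw [hT]; exact (Nat.ceil_lt_add_one hpos).le
    have hmem : T ∈ {t : ℕ | dp p n t ≤ a} := hn1 T hT1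
    have hle : mixTime p a n ≤ T := Nat.sInf_le hmem
    have hin : dp p n (mixTime p a n) ≤ a := Nat.sInf_mem (s := {t : ℕ | dp p n t ≤ a}) ⟨T, hmem⟩
    have hge : 1 / 2 * (n * (Real.log n - c2)) ≤ mixTime p a n := by
      by_contra hcon
      push Not at hcon
      have h3 := hn2 _ hcon.le
      have h4 := le_abs_self a
      linarith
    have hle' : (mixTime p a n : ℝ) ≤ T := by exact_mod_cast hle
    have hc1n : 0 ≤ c1 * n := by positivity
    have hc2n : 0 ≤ c2 * n := by positivity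
    rw [abs_le]
    constructor
    · nlinarith
    · nlinarith
  · obtain ⟨c, -, h⟩ := upper_dp p a hp ha
    exact ⟨c, h⟩
  · obtain ⟨c, -, h⟩ := lower_dp p M hp
    refine ⟨c, ?_⟩
    filter_upwards [h] with n hn t ht
    have h1 := hn t ht
    have h2 := le_abs_self M
    linarith

end Pool.Agent.Results.MP_c0051b_pr.LpCutoffWindow
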